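import Pool.Agent.V11249.RigidMain

set_option autoImplicit false

namespace Pool.Agent.Results.MP_91fb13_lc.RigidBranching

open Set Cardinal

universe u

/-- Branchwise-real trees: a partial order in which the elements below any element form a chain
(a tree order), every branch (maximal chain) is order-isomorphic to a nondegenerate interval of
`ℝ`, and any two elements have a greatest common lower bound. -/
structure IsBranchwiseReal (X : Type u) [PartialOrder X] : Prop where
  tree : ∀ x : X, IsChain (· ≤ ·) {y | y ≤ x}
  branch : ∀ B : Set X, IsMaxChain (· ≤ ·) B →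
    ∃ I : Set ℝ, I.OrdConnected ∧ I.Nontrivial ∧ Nonempty (B ≃o I)
  meet : ∀ x y : X, ∃ m, IsGLB {x, y} m

/-- The set of components above `x`: the component of `y > x` consists of the `z` for which some
`w > x` satisfies `w ≤ y` and `w ≤ z`. Its cardinality is the degree of `x`. -/
def components {X : Type u} [PartialOrder X] (x : X) : Set (Set X) :=
  {C | ∃ y, x < y ∧ C = {z | ∃ w, x < w ∧ w ≤ y ∧ w ≤ z}}

/-- For every infinite cardinal `κ` there is a rigid, uniformly `κ`-branching branchwise-real
tree, which moreover carries a strictly increasing height map to `ℝ` sending every branch onto an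
interval. -/
theorem result (κ : Cardinal.{u}) (hκ : ℵ₀ ≤ κ) :
    ∃ (X : Type u) (_ : PartialOrder X), Nonempty X ∧ IsBranchwiseReal X ∧
      (∀ x : X, #(components x) = κ) ∧
      (∃ h : X → ℝ, StrictMono h ∧
        ∀ B : Set X, IsMaxChain (· ≤ ·) B → (h '' B).OrdConnected) ∧
      ∀ e : X ≃o X, e = OrderIso.refl X := by
  obtain ⟨V, hV⟩ := V11249.RigidTree.exists_good
  let W : Type u := κ.ord.ToType
  have hW : #W = κ := Cardinal.mk_ord_toType κ
  have hne : Nonempty W := by
    rw [← Cardinal.mk_ne_zero_iff, hW]
    exact (Cardinal.aleph0_pos.trans_le hκ).ne'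
  obtain ⟨b0⟩ := id hne
  refine ⟨V11249.RigidTree.Node W V, inferInstance, ?_, ⟨?_, ?_, ?_⟩, ?_, ?_, ?_⟩
  · exact ⟨{ r := 0, f := fun _ => none, r_nonneg := le_rfl, neg := fun _ _ => rfl,
             top := fun _ _ => rfl, gap := fun _ => ⟨1, one_pos, fun _ _ _ => rfl⟩
             lim := fun t ht hacc => by
              obtain ⟨s, hs, _⟩ := hacc (t - 1) (by linarith)
              exact absurd rfl hs }⟩
  · intro x y hy z hz _
    exact V11249.RigidTree.tree_chain hy hz
  · intro B hB
    exact ⟨_, V11249.RigidTree.branch_image hB, V11249.RigidTree.branch_nontrivial hB,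
      V11249.RigidTree.branch_iso hB⟩
  · exact V11249.RigidTree.exists_meet
  · intro x
    exact (V11249.RigidTree.mk_components (hκ.trans_eq hW.symm) x).trans hW
  · exact ⟨V11249.RigidTree.Node.r, fun x y h => V11249.RigidTree.r_lt_of_lt h,
      fun B hB => V11249.RigidTree.branch_image hB⟩
  · intro e
    apply OrderIso.ext
    funext x
    exact V11249.RigidTree.rigid hV b0 e x

end Pool.Agent.Results.MP_91fb13_lc.RigidBranching
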